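import Pool.Agent.Q60.TP.Idx

/-!
# Jannsen's conjectures (a) and (b) for all powers of a variety: `X ^ (b ^ 3)` at one prime decides

For a smooth projective variety `X` the conjectures (a) and (b) of Jannsen are, by Poincare duality,
the Tate conjecture and its strong form. The theorem below says that for all powers of `X` they
follow, under the stated assumptions, from (a) for the single power `X ^ (b ^ 3)` and one prime.

Let `X` be a smooth projective variety over a field and `b` the sum of its Betti numbers. We
consider `l`-adic cohomology (or another Weil cohomology theory with an action of the Galois group),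
and we assume that the centre of the algebra of the endomorphisms of `H(X)` given by Tate classes
on `X × X` has no nonzero element which is skew for the Poincare pairing (for an abelian variety
this excludes complex multiplications in the centre).

Let the Tate conjecture hold for `X ^ 4`, and let homological and numerical equivalence agree on
`X ^ 6`.

* If the Galois representations on the cohomology of `X ^ 2` in even degrees are semisimple, then the
  quotient of the dimension of the space of the Tate classes on `X ^ n` and of the rank of the cycles
  on `X ^ n` modulo numerical equivalence converges to a natural number `m ≤ 4 ^ (b ^ 2)`, it is at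
  most `m` for even `n`, and `m = 1` if and only if all Tate classes on all powers are combinations
  of classes of cycles. For this the single power `X ^ (b ^ 3)` is sufficient: if the Tate conjecture
  holds for `X ^ (b ^ 3)`, then it holds in its full form (finitely many cycles are at the same time
  a basis of the rational space of the classes of cycles and of the space of all Tate classes) for
  all powers of `X`, and all representations on the cohomology of the powers are semisimple.
* Let the base field be finitely generated of characteristic `p`, `Γ` its Weil group, `Δ` the
  geometric Galois group and `F` a Frobenius element. Then the representation of `Δ` on the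
  cohomology is semisimple by a theorem of Deligne, and this is sufficient for the first assertion.
  Moreover, the first assertion is then true with the same number `m` for the cohomology theories of
  all other primes `l'`, for which nothing is assumed: the Tate conjecture for `X ^ (b ^ 3)` and for
  ONE prime implies the Tate conjecture in its full form, and the semisimplicity, for ALL powers and
  for ALL primes. Here one uses that the orders of the poles of the L-functions, `poleNumber`, do not
  depend on `l` (Grothendieck, Deligne).

`power X n` is the product of `n` copies of `X`.
-/

open CategoryTheory AlgebraicGeometry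

universe u v' w

namespace Pool.Agent.Results.MP_4776b1_ag.CubicPowerDecides

open Pool.Agent.H914 Pool.Agent.H914.VarClass
open Pool.Agent.Q55 (GaloisAction TateConj)
open Pool.Agent.Q57.OP (res)
open Pool.Agent.Q56.DP (tateNumber poleNumber)
open Pool.Agent.Q60.TD (SemisimpleAt power)
open Pool.Agent.Q60.TP (TateCentre IndexAtMost StrongForm GeoSemisimple)

/-- **The Tate conjecture for `X ^ (b ^ 3)` at one prime decides.** -/
theorem result {k : Type u} [Field k] {𝒱 : VarClass k} {ops : CycleOps 𝒱}
    (W : WeilCohomology.{u, 0} ops) (φ : W.K →+* ℂ) {Γ : Type w} [Group Γ]
    (G : GaloisAction W Γ) (X : 𝒱.Obj) [Nontrivial (W.H X)] (b : ℕ)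
    (hb : Module.finrank W.K (W.H X) = b) (D : X.Cycles) (hD : X.IsCyc 1 D)
    (hHL : HardLefschetz W X D) (hc : TateCentre G X) (h4 : TateConj G (power X 4))
    (h6 : HomEqNum W (power X 6)) :
    ((∀ j, SemisimpleAt G (power X 2) (2 * j)) →
      IndexAtMost G X (4 ^ b ^ 2) ∧ (TateConj G (power X (b ^ 3)) → StrongForm G X)) ∧
    ∀ (Δ : Subgroup Γ) [Δ.Normal] (F : Γ), (∀ g : Γ, ∃ m : ℤ, ∃ d ∈ Δ, g = F ^ m * d) →
      (∀ j, SemisimpleAt (res G Δ) (power X 2) (2 * j)) →
      IndexAtMost G X (4 ^ b ^ 2) ∧ (TateConj G (power X (b ^ 3)) → StrongForm G X) ∧
      ∀ (W' : WeilCohomology.{u, v'} ops) [Nontrivial (W'.H X)] (G' : GaloisAction W' Γ),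
        poleNumber G Δ F X = poleNumber G' Δ F X →
        IndexAtMost G' X (4 ^ b ^ 2) ∧ tateNumber G' X = tateNumber G X ∧
          (GeoSemisimple G' Δ X → TateConj G (power X (b ^ 3)) → StrongForm G' X) :=
  Pool.Agent.Q60.TP.cubic φ hc hD hHL hb h4 h6

end Pool.Agent.Results.MP_4776b1_ag.CubicPowerDecides
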