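import Pool.Agent.Q59.IB.Symp
import Pool.Agent.Q59.IB.Covers

/-!
# Cycles, Tate classes and poles for `Z × C ^ n`, `Z` an arbitrary singular variety

Let `k₀` be a finitely generated field, of characteristic zero or positive, and `Z` an ARBITRARY variety
over `k₀`: singular, open, reducible. Let `T` be a geometrically irreducible variety over `k₀` with the
function field `k`, and `C` a curve over `k` (the generic member of a family of curves over `T`), which is a
Galois cover of a smooth projective curve of genus `g ≥ 0`, ramified over some points, with the group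
`G` and with ramification indices which divide `N` (in positive characteristic: the order of `G` is
prime to it). We compare the two questions of Jannsen for `X = Z × C ^ n` and for `Z`.

**Homology.** By the Künneth formula the Borel-Moore homology `H_(2 i) (X, ℚ_ℓ (i))` is the sum of
tensor products of the Borel-Moore homology `W` of `Z` and of tensor powers of `H_1 (C)`. After a
finite extension of the field of coefficients (which is embedded into `ℂ`) and of `k`, the latter is
the direct sum of the `χ ⊗ V_χ`, where `χ` runs through the irreducible representations of `G` and `V_χ`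
belongs to a local system `L_χ`; `ex` is the multiset of the exponents of the nontrivial
eigenvalues of its local monodromies. The structure `LocalSystems` (in `Pool.Agent.Q59.IB.Covers`) contains
these numerical invariants for a finite family of local systems on one or several curves.

**Galois action.** An element `γ` of the Galois group of `k` acts on the sum `H` of the `V_i` by a map
`mat γ` which preserves the `V_i` and multiplies the pairings `V_i × V_i* → ℚ_ℓ (1)` by the cyclotomic
character `cyc γ`; `det γ i` is the determinant on `V_i`. It acts by `rep γ` on `W`, through the Galois group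
of `k₀`; the homology of `Z` is not semisimple in general, it has many weights, and nothing is
supposed about it. Let `D` be the group of the maps of `H` which preserve the `V_i` and the pairings and
have determinant one on all `V_i`. For sufficiently general families `D` is the identity component of
the Zariski closure of the image of the geometric fundamental group of `T` (for `T` the moduli space of
the pointed curves with level structures and `G` commutative, `g ≥ 3`: Looijenga, Boggi; `G` arbitrary,
`g` large: Landesman, Litt, Sawin; `g = 0`: Deligne, Mostow, Katz; the case of positive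
characteristic prime to the order of `G` follows from characteristic zero by the comparison of tame
fundamental groups). As `D` acts trivially on `W`, all classes fixed by an open subgroup of the Galois group
of `k` are tensors with values in `W` which are invariant under `D`.

**Exponents.** We suppose that the exponents of all local systems form pairs `(a, -a)` (`Balanced`):
this is the case if the cover is unramified, or if the local monodromies form pairs of mutually inverse
conjugacy classes or are conjugate to their inverses (for instance for the symmetric groups and all Weyl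
groups). The product of determinants `det V_i`, `i = μ j`, is isomorphic to the line of a Fermat variety
with the character `exAll μ`, the union of the `ex i`, up to a Tate twist (Schoen for unramified
covers; see `MP_e12fcd_ag.CoversTimesVarieties`), so that it is spanned by an algebraic cycle, after a
finite extension of the field (Shioda), and its character is a power of the cyclotomic character
(`DetsAreTate`). So all products of pairings and determinants are algebraic. The conjectures of Jannsen are
studied over such a finite extension of `k`.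

**Cycle classes.** `R` is a subfield of `ℂ` over which the representations `χ` are defined (a number
field), `BZ` is the space of the combinations with coefficients in `R` of the classes of the cycles on `Z`
and `BX` the space of those on `X` with `s` tensor factors in the Künneth decomposition of `X` (the
projections to the components are given by algebraic correspondences on the factors `C`). The
letters are dual bases, `ε x = ± 1` is the pairing of `x` and its dual. The external product of a
cycle on `Z` with a product of pairings and determinants is a cycle on `X`, and the contraction of a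
cycle on `X` with such a product is a cycle on `Z` (`CycleClasses`). So `dim_R BZ` is the rank of the group
of the classes of cycles, and `dim_ℂ` of the span of `BZ` that of the subspace of the homology which they
generate.

**Tate classes and poles.** For a set `A` of elements of the Galois group let `fixedZ A` and `fixedX A` be
the spaces of the classes fixed by `A` (for all of the group: the Tate classes, `s = 2 m`). Let `k` have
positive characteristic (or be finite) and let `A` be the geometric Galois group and `F` the
Frobenius of a point. By Grothendieck and Deligne the order of the pole of the L-function in Q2 is the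
multiplicity of the eigenvalue one of `F` on `fixedZ A` (on `fixedX A`), the dimension of `genZ A F`
(`genX A F`): the L-function belongs to the dual of the homology, its pole to the coinvariants.

**The theorem.** There is a number `n`, which depends only on the curves and on `s` (the number of the
linearly independent products of pairings and determinants), such that for all varieties `Z`: the space of
the fixed classes of `X`, the generalized eigenspace, the group of the classes of cycles (with
coefficients in `R`) and the subspace generated by it are isomorphic to the `n`-th powers of those of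
`Z`. In particular, **if for `Z` the cycle map is surjective (Q1 (a)), if the group of the classes of
cycles has finite rank, equal to the dimension of the space of the Tate classes (Q1 (b)), or if the order
of the pole is this rank (Q2), then the same holds for all `Z × C ^ n`.** For `n > 0` the converse holds.
-/

namespace Pool.Agent.Results.MP_4776b1_ag.PowersOfCurvesRanks

open Pool.Agent.Q59.GC Pool.Agent.Q59.VZ Pool.Agent.Q59.IB

/-- The action of the Galois group `Γ` on the sum `H` of the spaces `V_i` (by `mat γ`, which multiplies
the pairings by `cyc γ` and has the determinant `det γ i` on `V_i`) and on the homology `W` of `Z`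
(by `rep γ`). -/
structure GaloisModule {N : ℕ} {I : Type} [Fintype I] [DecidableEq I] (S : LocalSystems N I)
    (ε : Letter S.labels → ℂ) (W : Type) [AddCommGroup W] [Module ℂ W] where
  Γ : Type
  mat : Γ → Matrix (Letter S.labels) (Letter S.labels) ℂ
  cyc : Γ → ℂ
  det : Γ → I → ℂ
  sim : ∀ γ, IsSimilitude ε (cyc γ) (det γ) (mat γ)
  rep : Γ → W →ₗ[ℂ] W

section

variable {N : ℕ} {I : Type} [Fintype I] [DecidableEq I] {S : LocalSystems N I}
  {ε : Letter S.labels → ℂ} {W : Type} [AddCommGroup W] [Module ℂ W]

/-- Products of determinants whose exponents form pairs have as character a power of the cyclotomic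
character. -/
def DetsAreTate (G : GaloisModule S ε W) : Prop :=
  ∀ (l : ℕ) (μ : Fin l → I) (m : ℕ), Balanced (exAll S.labels μ) →
    ∑ j, S.dim (μ j) = 2 * m → ∀ γ, ∏ j, G.det γ (μ j) = G.cyc γ ^ m

/-- the twisted action on the homology of `Z` -/
noncomputable def GaloisModule.rho (G : GaloisModule S ε W) (m : ℕ) (γ : G.Γ) : W →ₗ[ℂ] W :=
  G.cyc γ ^ m • G.rep γ

/-- the action on the tensors with `2 * m` factors and values in `W` -/
noncomputable def GaloisModule.act (G : GaloisModule S ε W) (m : ℕ) (γ : G.Γ) :
    ((Fin (2 * m) → Letter S.labels) → W) →ₗ[ℂ] ((Fin (2 * m) → Letter S.labels) → W) :=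
  theta (Fin (2 * m)) (G.mat γ) (G.rep γ)

/-- the classes of `Z` fixed by `A` -/
noncomputable def GaloisModule.fixedZ (G : GaloisModule S ε W) (m : ℕ) (A : Set G.Γ) : Submodule ℂ W :=
  ⨅ γ ∈ A, LinearMap.ker (G.rho m γ - 1)

/-- the classes of `X` fixed by `A` and invariant under `D` -/
noncomputable def GaloisModule.fixedX (G : GaloisModule S ε W) (m : ℕ) (A : Set G.Γ) :
    Submodule ℂ ((Fin (2 * m) → Letter S.labels) → W) :=
  invariants ε (Fin (2 * m)) W ⊓ ⨅ γ ∈ A, LinearMap.ker (G.act m γ - 1)

/-- the generalized eigenspace of `F` for the eigenvalue one on the classes of `Z` fixed by `A` -/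
noncomputable def GaloisModule.genZ (G : GaloisModule S ε W) (m : ℕ) (A : Set G.Γ) (F : G.Γ) :
    Submodule ℂ W :=
  G.fixedZ m A ⊓ Module.End.maxGenEigenspace (G.rho m F) 1

/-- the generalized eigenspace of `F` for the eigenvalue one on the classes of `X` fixed by `A` -/
noncomputable def GaloisModule.genX (G : GaloisModule S ε W) (m : ℕ) (A : Set G.Γ) (F : G.Γ) :
    Submodule ℂ ((Fin (2 * m) → Letter S.labels) → W) :=
  G.fixedX m A ⊓ Module.End.maxGenEigenspace (G.act m F) 1

/-- The combinations with coefficients in the field `R` of the classes of the cycles on `Z` and on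
`X` (with `2 * m` tensor factors): the classes on `X` are invariant under `D`, and external products
and contractions with products of pairings and determinants are classes of cycles. -/
structure CycleClasses (R : Subfield ℂ) (S : LocalSystems N I) (ε : Letter S.labels → ℂ) (m : ℕ)
    (W : Type) [AddCommGroup W] [Module ℂ W] where
  BZ : Submodule R W
  BX : Submodule R ((Fin (2 * m) → Letter S.labels) → W)
  inv : ∀ x ∈ BX, x ∈ invariants ε (Fin (2 * m)) W
  ext : ∀ (d : Data S.labels (Fin (2 * m))), ∀ z ∈ BZ, (fun w => d.val ε w • z) ∈ BX
  con : ∀ (d : Data S.labels (Fin (2 * m))), ∀ x ∈ BX, contract (d.val ε) x ∈ BZ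

/-- the subspace of the homology of `Z` generated by the cycles -/
def CycleClasses.spanZ {R : Subfield ℂ} {m : ℕ} (B : CycleClasses R S ε m W) : Submodule ℂ W :=
  Submodule.span ℂ (B.BZ : Set W)

/-- the subspace of the homology of `X` generated by the cycles -/
def CycleClasses.spanX {R : Subfield ℂ} {m : ℕ} (B : CycleClasses R S ε m W) :
    Submodule ℂ ((Fin (2 * m) → Letter S.labels) → W) :=
  Submodule.span ℂ (B.BX : Set ((Fin (2 * m) → Letter S.labels) → W))

/-- The four spaces of `X` are isomorphic to the `n`-th powers of those of `Z`. -/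
structure IsPower {R : Subfield ℂ} {m : ℕ} (n : ℕ) (G : GaloisModule S ε W)
    (B : CycleClasses R S ε m W) : Prop where
  fixed : ∀ A, Nonempty ((Fin n → G.fixedZ m A) ≃ₗ[ℂ] G.fixedX m A)
  gen : ∀ A F, Nonempty ((Fin n → G.genZ m A F) ≃ₗ[ℂ] G.genX m A F)
  cycles : Nonempty ((Fin n → B.BZ) ≃ₗ[R] B.BX)
  span : Nonempty ((Fin n → B.spanZ) ≃ₗ[ℂ] B.spanX)

/-- Q1 (a) for `Z`: the cycles generate the space of the Tate classes. -/
def SurjectiveZ {R : Subfield ℂ} {m : ℕ} (G : GaloisModule S ε W) (B : CycleClasses R S ε m W) :
    Prop := B.spanZ = G.fixedZ m Set.univ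

/-- Q1 (a) for `X`: the cycles generate the space of the Tate classes. -/
def SurjectiveX {R : Subfield ℂ} {m : ℕ} (G : GaloisModule S ε W) (B : CycleClasses R S ε m W) :
    Prop := B.spanX = G.fixedX m Set.univ

/-- Q1 (b) for `Z`: the rank of the group of the classes of cycles is finite and equal to the dimension
of the space of the Tate classes. -/
def RankZ {R : Subfield ℂ} {m : ℕ} (G : GaloisModule S ε W) (B : CycleClasses R S ε m W) : Prop :=
  Module.Finite R B.BZ ∧ Module.Finite ℂ (G.fixedZ m Set.univ) ∧
    Module.finrank R B.BZ = Module.finrank ℂ (G.fixedZ m Set.univ)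

/-- Q1 (b) for `X`: the rank of the group of the classes of cycles is finite and equal to the dimension
of the space of the Tate classes. -/
def RankX {R : Subfield ℂ} {m : ℕ} (G : GaloisModule S ε W) (B : CycleClasses R S ε m W) : Prop :=
  Module.Finite R B.BX ∧ Module.Finite ℂ (G.fixedX m Set.univ) ∧
    Module.finrank R B.BX = Module.finrank ℂ (G.fixedX m Set.univ)

/-- Q2 for `Z`: the order of the pole is the rank of the group of the classes of cycles. -/
def PoleZ {R : Subfield ℂ} {m : ℕ} (G : GaloisModule S ε W) (B : CycleClasses R S ε m W)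
    (A : Set G.Γ) (F : G.Γ) : Prop :=
  Module.Finite R B.BZ ∧ Module.Finite ℂ (G.genZ m A F) ∧
    Module.finrank ℂ (G.genZ m A F) = Module.finrank R B.BZ

/-- Q2 for `X`: the order of the pole is the rank of the group of the classes of cycles. -/
def PoleX {R : Subfield ℂ} {m : ℕ} (G : GaloisModule S ε W) (B : CycleClasses R S ε m W)
    (A : Set G.Γ) (F : G.Γ) : Prop :=
  Module.Finite R B.BX ∧ Module.Finite ℂ (G.genX m A F) ∧
    Module.finrank ℂ (G.genX m A F) = Module.finrank R B.BX

omit [Fintype I] [DecidableEq I] in
lemma even_dims {l : ℕ} (μ : Fin l → I) (h : Even (Multiset.card (exAll S.labels μ))) :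
    ∃ m, ∑ j, S.dim (μ j) = 2 * m := by
  have h1 : ((∑ j, S.dim (μ j) : ℕ) : ℤ) = Multiset.card (exAll S.labels μ) +
      2 * ∑ j, (((S.genus (μ j) : ℤ) - 1) * S.rank (μ j) + S.inv (μ j)) := by
    rw [exAll_card]
    push_cast
    rw [Finset.mul_sum, ← Finset.sum_add_distrib]
    exact Finset.sum_congr rfl fun j _ => S.dim_eq (μ j)
  have h2 : Even (∑ j, S.dim (μ j)) := by
    rw [← Int.even_coe_nat, h1]
    exact ((Int.even_coe_nat _).mpr h).add (even_two_mul _)
  obtain ⟨m, hm⟩ := h2
  exact ⟨m, by omega⟩

/-- the scalar of a product of pairings and determinants -/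
lemma scalar (hbal : ∀ i, Balanced (S.ex i)) {G : GaloisModule S ε W} (hT : DetsAreTate G) {m : ℕ}
    (d : Data S.labels (Fin (2 * m))) (γ : G.Γ) :
    (∏ j, G.det γ (d.μ j)) * G.cyc γ ^ d.p = G.cyc γ ^ m := by
  have hb : Balanced (exAll S.labels d.μ) := Balanced.sum _ _ fun i => hbal (d.μ i)
  obtain ⟨q, hq⟩ := even_dims (S := S) d.μ (by
    obtain ⟨v, hv⟩ := hb
    rw [hv, Multiset.card_add, Multiset.card_map]
    exact ⟨_, rfl⟩)
  have h1 := d.card
  rw [Fintype.card_fin] at h1
  have h2 : ∑ j, S.labels.dim (d.μ j) = 2 * q := hq
  have h3 : q + d.p = m := by omega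
  rw [hT _ _ _ hb hq γ, ← pow_add, h3]

end

/-- **Cycles, Tate classes and poles of `Z × C ^ n` are powers of those of `Z`.** -/
theorem result (N : ℕ) [NeZero N] (I : Type) [Fintype I] [DecidableEq I] (S : LocalSystems N I)
    (hbal : ∀ i, Balanced (S.ex i)) (ε : Letter S.labels → ℂ)
    (hε : ∀ x : Letter S.labels, ¬ S.alt x.1 = true → ε (dual x) = -ε x)
    (hε1 : ∀ x, ε x = 1 ∨ ε x = -1) (m : ℕ) :
    ∃ n : ℕ, ∀ (W : Type) [AddCommGroup W] [Module ℂ W] (G : GaloisModule S ε W), DetsAreTate G →
      ∀ (R : Subfield ℂ) (B : CycleClasses R S ε m W),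
      IsPower n G B ∧ (SurjectiveZ G B → SurjectiveX G B) ∧ (RankZ G B → RankX G B) ∧
      ∀ A F, PoleZ G B A F → PoleX G B A F := by
  classical
  have hε0 : ∀ x, ε x ≠ 0 := fun x => by
    rcases hε1 x with h | h
    · rw [h]; exact one_ne_zero
    · rw [h]; exact neg_ne_zero.mpr one_ne_zero
  obtain ⟨n, d, hd, hpos, hall⟩ := exists_comb (Λ := S.labels) ε hε hε0 (Fin (2 * m))
  refine ⟨n, fun W _ _ G hT R B => ?_⟩
  let b : Fin n → (Fin (2 * m) → Letter S.labels) → ℂ := fun j => (d j).val ε
  have hinj : Function.Injective (Pool.Agent.Q59.IB.comb (W := W) b) := comb_injective hd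
  have hψ : ∀ (γ : G.Γ) (j : Fin n) (w : Fin (2 * m) → Letter S.labels),
      Pool.Agent.Q59.GC.act (G.mat γ) (b j) w = G.cyc γ ^ m * b j w := by
    intro γ j w
    rw [← scalar hbal hT (d j) γ]
    exact act_prodOf (G.sim γ) _ _ _ w
  have hone : ∀ (γ : G.Γ) (z : Fin n → W), (G.act m γ - 1) (Pool.Agent.Q59.IB.comb b z) =
      Pool.Agent.Q59.IB.comb b fun j => (G.rho m γ - 1) (z j) := by
    intro γ z
    have h := theta_pow (hψ γ) (G.rep γ) 1 z
    rw [pow_one] at h
    rw [pow_one] at h
    exact h
  have hpow : ∀ (γ : G.Γ) (k : ℕ) (z : Fin n → W), ((G.act m γ - 1) ^ k) (Pool.Agent.Q59.IB.comb b z) =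
      Pool.Agent.Q59.IB.comb b fun j => ((G.rho m γ - 1) ^ k) (z j) := fun γ k z => theta_pow (hψ γ) (G.rep γ) k z
  have hzero : ∀ z : Fin n → W, Pool.Agent.Q59.IB.comb b z = 0 ↔ ∀ j, z j = 0 := by
    intro z
    constructor
    · intro h j
      have h1 := hinj (h.trans (map_zero (Pool.Agent.Q59.IB.comb b)).symm)
      exact congrFun h1 j
    · intro h
      have h1 : z = 0 := funext h
      rw [h1, map_zero]
  -- the combinations are invariant under `D`
  have hinv : ∀ z : Fin n → W, Pool.Agent.Q59.IB.comb b z ∈ invariants ε (Fin (2 * m)) W := fun z =>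
    comb_mem_invariants hε hε0 d z
  have hmem : ∀ x ∈ invariants ε (Fin (2 * m)) W, ∃ z : Fin n → W, x = Pool.Agent.Q59.IB.comb b z :=
    fun x hx => hall W x hx
  -- fixed classes
  have hfix : ∀ (A : Set G.Γ) (z : Fin n → W), Pool.Agent.Q59.IB.comb b z ∈ G.fixedX m A ↔
      ∀ j, z j ∈ G.fixedZ m A := by
    intro A z
    unfold GaloisModule.fixedX GaloisModule.fixedZ
    rw [Submodule.mem_inf]
    simp only [Submodule.mem_iInf, LinearMap.mem_ker]
    constructor
    · rintro ⟨-, h⟩ j γ hγ
      have h1 := h γ hγ
      rw [hone] at h1
      exact (hzero _).mp h1 j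
    · intro h
      refine ⟨hinv z, fun γ hγ => ?_⟩
      rw [hone]
      exact (hzero _).mpr fun j => h j γ hγ
  have hfix2 : ∀ (A : Set G.Γ), ∀ x ∈ G.fixedX m A, ∃ z : Fin n → W, x = Pool.Agent.Q59.IB.comb b z :=
    fun A x hx => hmem x (Submodule.mem_inf.mp hx).1
  -- generalized eigenspaces
  have hgen : ∀ (A : Set G.Γ) (F : G.Γ) (z : Fin n → W), Pool.Agent.Q59.IB.comb b z ∈ G.genX m A F ↔
      ∀ j, z j ∈ G.genZ m A F := by
    intro A F z
    unfold GaloisModule.genX GaloisModule.genZ
    simp only [Submodule.mem_inf, hfix A z, Module.End.mem_maxGenEigenspace, one_smul]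
    constructor
    · rintro ⟨h1, k, hk⟩ j
      refine ⟨h1 j, k, ?_⟩
      rw [hpow] at hk
      exact (hzero _).mp hk j
    · intro h
      refine ⟨fun j => (h j).1, ?_⟩
      choose k hk using fun j => (h j).2
      refine ⟨∑ j, k j, ?_⟩
      rw [hpow]
      refine (hzero _).mpr fun j => ?_
      obtain ⟨q, hq⟩ := Nat.exists_eq_add_of_le
        (Finset.single_le_sum (fun i _ => Nat.zero_le (k i)) (Finset.mem_univ j))
      change ((G.rho m F - 1) ^ (∑ i, k i)) (z j) = 0
      rw [hq, add_comm, pow_add, Module.End.mul_apply, hk j, map_zero]
  -- cycles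
  have hcyc : ∀ z : Fin n → W, Pool.Agent.Q59.IB.comb b z ∈ B.BX ↔ ∀ j, z j ∈ B.BZ := by
    intro z
    constructor
    · intro h j
      refine mem_of_contract_field hd (fun j w => val_int hε1 (d j) w) R (A := B.BZ) (z := z)
        (fun k => ?_) j
      exact B.con (d k) _ h
    · intro h
      change (∑ j, fun w => b j w • z j) ∈ B.BX
      exact Submodule.sum_mem _ fun j _ => B.ext (d j) (z j) (h j)
  have hspan : ∀ z : Fin n → W, Pool.Agent.Q59.IB.comb b z ∈ B.spanX ↔ ∀ j, z j ∈ B.spanZ := by
    intro z
    constructor
    · intro h
      have key : ∀ x ∈ B.spanX, ∃ z' : Fin n → W, x = Pool.Agent.Q59.IB.comb b z' ∧ ∀ j, z' j ∈ B.spanZ := by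
        intro x hx
        unfold CycleClasses.spanX at hx
        induction hx using Submodule.span_induction with
        | mem y hy =>
          obtain ⟨z', hz'⟩ := hmem y (B.inv y hy)
          have h1 : ∀ j, z' j ∈ B.BZ := (hcyc z').mp (hz' ▸ hy)
          exact ⟨z', hz', fun j => Submodule.subset_span (h1 j)⟩
        | zero => exact ⟨0, (map_zero _).symm, fun j => Submodule.zero_mem _⟩
        | add y y' _ _ h1 h2 =>
          obtain ⟨u, hu, hu2⟩ := h1
          obtain ⟨u', hu', hu2'⟩ := h2
          exact ⟨u + u', by rw [hu, hu', map_add], fun j => Submodule.add_mem _ (hu2 j) (hu2' j)⟩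
        | smul a y _ h1 =>
          obtain ⟨u, hu, hu2⟩ := h1
          exact ⟨a • u, by rw [hu, map_smul], fun j => Submodule.smul_mem _ _ (hu2 j)⟩
      obtain ⟨z', h1, h2⟩ := key _ h
      have h3 := hinj h1
      subst h3
      exact h2
    · intro h
      change (∑ j, fun w => b j w • z j) ∈ B.spanX
      refine Submodule.sum_mem _ fun j _ => ?_
      have key : ∀ y ∈ B.spanZ, (fun w => b j w • y) ∈ B.spanX := by
        intro y hy
        unfold CycleClasses.spanZ at hy
        induction hy using Submodule.span_induction with
        | mem y hy => exact Submodule.subset_span (B.ext (d j) y hy)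
        | zero =>
          have h1 : (fun w => b j w • (0 : W)) = 0 := by funext w; simp
          rw [h1]
          exact Submodule.zero_mem _
        | add y y' _ _ h1 h2 =>
          have h3 : (fun w => b j w • (y + y')) = (fun w => b j w • y) + fun w => b j w • y' := by
            funext w
            rw [Pi.add_apply, smul_add]
          rw [h3]
          exact Submodule.add_mem _ h1 h2
        | smul a y _ h1 =>
          have h3 : (fun w => b j w • (a • y)) = a • fun w => b j w • y := by
            funext w
            rw [Pi.smul_apply, smul_comm]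
          rw [h3]
          exact Submodule.smul_mem _ _ h1
      exact key _ (h j)
  have hspan2 : ∀ x ∈ B.spanX, ∃ z : Fin n → W, x = Pool.Agent.Q59.IB.comb b z := by
    intro x hx
    unfold CycleClasses.spanX at hx
    induction hx using Submodule.span_induction with
    | mem y hy => exact hmem y (B.inv y hy)
    | zero => exact ⟨0, (map_zero _).symm⟩
    | add y y' _ _ h1 h2 =>
      obtain ⟨u, hu⟩ := h1
      obtain ⟨u', hu'⟩ := h2
      exact ⟨u + u', by rw [hu, hu', map_add]⟩
    | smul a y _ h1 =>
      obtain ⟨u, hu⟩ := h1
      exact ⟨a • u, by rw [hu, map_smul]⟩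
  have e1 : ∀ A, Nonempty ((Fin n → G.fixedZ m A) ≃ₗ[ℂ] G.fixedX m A) := fun A =>
    equiv_of_coords (Pool.Agent.Q59.IB.comb b) hinj (hfix A) (hfix2 A)
  have e2 : ∀ A F, Nonempty ((Fin n → G.genZ m A F) ≃ₗ[ℂ] G.genX m A F) := fun A F =>
    equiv_of_coords (Pool.Agent.Q59.IB.comb b) hinj (hgen A F)
      fun x hx => hfix2 A x (Submodule.mem_inf.mp hx).1
  have e3 : Nonempty ((Fin n → B.BZ) ≃ₗ[R] B.BX) := by
    refine equiv_of_coords ((Pool.Agent.Q59.IB.comb b).restrictScalars R) (fun z z' h => hinj h)
      (P := B.BZ) (Q := B.BX) hcyc fun x hx => hmem x (B.inv x hx)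
  have e4 : Nonempty ((Fin n → B.spanZ) ≃ₗ[ℂ] B.spanX) :=
    equiv_of_coords (Pool.Agent.Q59.IB.comb b) hinj hspan hspan2
  refine ⟨⟨e1, e2, e3, e4⟩, fun h => ?_, ?_, ?_⟩
  · apply le_antisymm
    · intro x hx
      obtain ⟨z, rfl⟩ := hspan2 x hx
      exact (hfix _ z).mpr fun j => h ▸ (hspan z).mp hx j
    · intro x hx
      obtain ⟨z, rfl⟩ := hfix2 _ x hx
      exact (hspan z).mpr fun j => h ▸ (hfix _ z).mp hx j
  · rintro ⟨hf1, hf2, h⟩
    obtain ⟨e⟩ := e3
    obtain ⟨e'⟩ := e1 Set.univ
    refine ⟨Module.Finite.equiv e, Module.Finite.equiv e', ?_⟩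
    rw [← e.finrank_eq, ← e'.finrank_eq, Module.finrank_pi_fintype, Module.finrank_pi_fintype, h]
  · rintro A F ⟨hf1, hf2, h⟩
    obtain ⟨e⟩ := e3
    obtain ⟨e'⟩ := e2 A F
    refine ⟨Module.Finite.equiv e, Module.Finite.equiv e', ?_⟩
    rw [← e.finrank_eq, ← e'.finrank_eq, Module.finrank_pi_fintype, Module.finrank_pi_fintype, h]

end Pool.Agent.Results.MP_4776b1_ag.PowersOfCurvesRanks
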