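import Pool.Agent.Q54.CC.Bf

/-!
# Tate conjectures for singular varieties and hypersurfaces given by tensors

For a tensor `T` of format `(M + 1) × (M + 1) × (r + 1)` over the field `k` let `C_T` (`tenO T`) be
the cubic hypersurface `∑ T_{abc} x_a y_b z_c = 0`, `x_0 = y_0 = 1`, in the affine space of
dimension `2 M + r + 1`. We show that each of the following statements holds for all quasi-projective
varieties over `k` in all dimensions if and only if it holds for the hypersurfaces `C_T`:

* (a) the classes of algebraic cycles generate the space of invariants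
  `H_(2 n)(X, K(n))^G` over `K`;
* (b) the group `B_n(X)` of these classes is finitely generated and `B_n(X) ⊗ K ≃ H_(2 n)(X, K(n))^G`;
* (Q2) the order of the L-function is minus the rank of `B_n(X)`.

More precisely, for an affine variety `X` and every `N` there is one tensor `T` such that for all
`n ≤ N` the statements for `X` in dimension `n` are equivalent to those for `C_T` in dimension
`n + r + 1`.
-/

namespace Pool.Agent.Results.MP_4776b1_ag.TensorHypersurfaces

universe u v w x y

open Q54.CU Q54.CC CategoryTheory Limits AlgebraicGeometry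

variable {k : Type u} [Field k] {𝓜 : Type w} [Category.{v} 𝓜] [Abelian 𝓜] {I : 𝓜}

/-- The property `P n X` for all dimensions `n` and all hypersurfaces `C_T`. -/
def ForTensors (k : Type u) [Field k] (P : ℤ → SchO k → Prop) : Prop :=
  ∀ (M r : ℕ) (T : Fin (M + 1) → Fin (M + 1) → Fin (r + 1) → k) (n : ℤ), P n (tenO T)

/-- The property `P n X` for all `n` and all affine varieties `X`. -/
def ForAffine (k : Type u) [Field k] (P : ℤ → SchO k → Prop) : Prop :=
  ∀ X : SchO k, IsVar X → IsAffine X.left → ∀ n : ℤ, P n X

/-- The property `P n X` for all `n` and all varieties `X` over which there is an affine bundle with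
affine total space. -/
def ForTorsor (k : Type u) [Field k] (P : ℤ → SchO k → Prop) : Prop :=
  ∀ X : SchO k, IsVar X → HasAffineTorsor X → ∀ n : ℤ, P n X

/-- The statements (a) and (b) of the question. -/
def TateAB (K : Type y) [Field K] [Linear K 𝓜] (D : CycData.{u, v, w, x} k 𝓜 I) (n : ℤ)
    (X : SchO k) : Prop :=
  IsSpanned K D n X ∧ IsLattice K (classes D n X)

/-- The property `P n X` of cycles of dimension `n` on `X` depends only on the cycle class map, and on
the homology up to summands with positive weights. -/
def IsInvariant (D : CycData.{u, v, w, x} k 𝓜 I) (P : ℤ → SchO k → Prop) : Prop :=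
  ∀ n X n' Y, SameP D n X n' Y → (P n X ↔ P n' Y)

/-- For every affine variety `X` and every `N` there is a tensor `T` such that for all `n ≤ N` the
properties `P n X` and `P (n + r + 1) C_T` are equivalent for all invariant properties `P`. -/
def TensorsSuffice (D : CycData.{u, v, w, x} k 𝓜 I) : Prop :=
  ∀ X : SchO k, IsVar X → IsAffine X.left → ∀ N : ℕ,
    ∃ (M r : ℕ) (T : Fin (M + 1) → Fin (M + 1) → Fin (r + 1) → k),
      ∀ P : ℤ → SchO k → Prop, IsInvariant D P → ∀ n : ℤ, n ≤ N →
        (P (n + r + 1) (tenO T) ↔ P n X)

/-- **Tate conjectures for singular varieties and hypersurfaces given by tensors.** -/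
theorem result (D : CycData.{u, v, w, x} k 𝓜 I) (hD : IsCycTheory D) (K : Type y) [Field K]
    [Linear K 𝓜] (Ord : 𝓜 → ℤ → Prop) (hO : IsOrder D Ord) :
    List.TFAE [ForTensors k (IsSpanned K D), ForAffine k (IsSpanned K D),
      ForTorsor k (IsSpanned K D)] ∧
    List.TFAE [ForTensors k (TateAB K D), ForAffine k (TateAB K D), ForTorsor k (TateAB K D)] ∧
    List.TFAE [ForTensors k (HasOrder D Ord), ForAffine k (HasOrder D Ord),
      ForTorsor k (HasOrder D Ord)] ∧
    IsInvariant D (IsSpanned K D) ∧ IsInvariant D (TateAB K D) ∧ IsInvariant D (HasOrder D Ord) ∧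
    TensorsSuffice D ∧
    ∀ (M r : ℕ) (T : Fin (M + 1) → Fin (M + 1) → Fin (r + 1) → k),
      IsVar (tenO T) ∧ IsAffine (tenO T).left := by
  have h1 : IsInvariant D (IsSpanned K D) := fun n X n' Y h => h.spanned K hD
  have h2 : IsInvariant D (TateAB K D) := fun n X n' Y h =>
    and_congr (h.spanned K hD) (h.lattice K hD)
  have h3 : IsInvariant D (HasOrder D Ord) := fun n X n' Y h => h.order K hD hO
  refine ⟨main_tensor hD _ h1, main_tensor hD _ h2, main_tensor hD _ h3, h1, h2, h3, ?_,
    fun M r T => ⟨isVar_tenO T, isAffine_tenO T⟩⟩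
  intro X hX ha N
  obtain ⟨M, r, T, i, hM, hd⟩ := exists_tensor X hX.ft ha (N + 2)
  refine ⟨M, r, T, fun P hP n hn => ?_⟩
  have hn' : n + 1 < (M + M : ℕ) := by omega
  exact hP _ _ _ _ (cone_sameP hD (tq T) hX i hd hn')

end Pool.Agent.Results.MP_4776b1_ag.TensorHypersurfaces
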